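import Pool.Agent.W182.KO.Main

set_option autoImplicit false

/-! Band-limited averages of shifted moments in short intervals. -/

namespace Pool.Agent.R313.KO

open Complex Filter Topology MeasureTheory Set
open scoped ContDiff
open Pool.Agent.W182.KO

variable {ξ1 κ R C1 C2 D1 D2 : ℝ} {ψ : ℝ → ℂ} {F1 F2 : ℂ → ℂ} {M : ℕ} {A B : ℕ → ℂ}

/-- the inner integral is integrable against the weight -/
lemma outer_int (h : TF ξ1 ψ) {c : ℝ} (G1 : DF F1 c R M C1) (G2 : DF F2 c R M C2) {L : ℝ} (hL : 1 ≤ L) {T : ℝ} (hT : 0 ≤ T) :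
    Integrable (fun y : ℝ => P ψ (L * y * I) * (∫ t in (0:ℝ)..T,
      F1 (1 / 2 + (y + t : ℝ) * I) * F2 (1 / 2 + (y - t : ℝ) * I))) := by
  have h2 := (I0_prodint h G1 G2 hL T).integral_prod_right
  refine h2.congr (Eventually.of_forall fun u => ?_)
  show (∫ t : ℝ, P ψ (L * u * I) * (F1 (1 / 2 + (u + t : ℝ) * I) *
    F2 (1 / 2 + (u - t : ℝ) * I)) ∂(volume.restrict (Set.Ioc 0 T))) = P ψ (L * u * I) * (∫ t in (0:ℝ)..T,
      F1 (1 / 2 + (u + t : ℝ) * I) * F2 (1 / 2 + (u - t : ℝ) * I))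
  rw [integral_const_mul, intervalIntegral.integral_of_le hT]

/-- Fubini on a general interval -/
lemma swap_gen (h : TF ξ1 ψ) {c : ℝ} (G1 : DF F1 c R M C1) (G2 : DF F2 c R M C2) {L : ℝ} (hL : 1 ≤ L) {a b : ℝ} (ha : 0 ≤ a) (hab : a ≤ b) :
    Integrable (fun y : ℝ => P ψ (L * y * I) * (∫ t in a..b,
      F1 (1 / 2 + (y + t : ℝ) * I) * F2 (1 / 2 + (y - t : ℝ) * I))) ∧
    ∫ y : ℝ, P ψ (L * y * I) * (∫ t in a..b,
      F1 (1 / 2 + (y + t : ℝ) * I) * F2 (1 / 2 + (y - t : ℝ) * I)) = ∫ t in a..b, I0 ψ F1 F2 L t := by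
  have hb : 0 ≤ b := ha.trans hab
  have i1 := outer_int h G1 G2 hL ha
  have i2 := outer_int h G1 G2 hL hb
  have hc : ∀ y : ℝ, Continuous fun t : ℝ => F1 (1 / 2 + (y + t : ℝ) * I) * F2 (1 / 2 + (y - t : ℝ) * I) := fun y =>
    (G1.line.comp (by fun_prop : Continuous fun t : ℝ => y + t)).mul (G2.line.comp (by fun_prop : Continuous fun t : ℝ => y - t))
  have e1 : (fun y : ℝ => P ψ (L * y * I) * (∫ t in a..b,
      F1 (1 / 2 + (y + t : ℝ) * I) * F2 (1 / 2 + (y - t : ℝ) * I))) = fun y : ℝ => P ψ (L * y * I) * (∫ t in (0:ℝ)..b,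
      F1 (1 / 2 + (y + t : ℝ) * I) * F2 (1 / 2 + (y - t : ℝ) * I)) - P ψ (L * y * I) * (∫ t in (0:ℝ)..a,
      F1 (1 / 2 + (y + t : ℝ) * I) * F2 (1 / 2 + (y - t : ℝ) * I)) := by
    funext y
    rw [← mul_sub, intervalIntegral.integral_interval_sub_left ((hc y).intervalIntegrable _ _) ((hc y).intervalIntegrable _ _)]
  rw [e1]
  refine ⟨i2.sub i1, ?_⟩
  rw [integral_sub i2 i1, I0_swap h G1 G2 hL hb, I0_swap h G1 G2 hL ha,
    intervalIntegral.integral_interval_sub_left (I0_int h G1 G2 hL hb) (I0_int h G1 G2 hL ha)]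

/-- the short interval theorem -/
theorem short_core (h : TF ξ1 ψ) (hξ : 0 ≤ ξ1) (hκ : 0 < κ)
    (G1 : DF F1 (1 + 4 * κ) R M C1) (G2 : DF F2 (1 + 4 * κ) R M C2)
    (E1 : DD F1 A κ D1) (E2 : DD F2 B κ D2) :
    ∃ C T1 : ℝ, 0 ≤ C ∧ Real.exp 1 ≤ T1 ∧ ∀ T : ℝ, T1 ≤ T → ∀ H : ℝ, 0 ≤ H → H ≤ T →
      ‖(∫ t in T..(T + H), I0 ψ F1 F2 (Real.log T) t) -
        (H : ℂ) * (((2 * Real.pi / Real.log T : ℝ) : ℂ) *
          ∑' n : ℕ, A n * B n / n * ψ (2 * Real.log n / Real.log T))‖ ≤ C * T ^ (ξ1 * (1 / 2 + 4 * κ)) := by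
  have hc : (1:ℝ) / 2 ≤ 1 + 4 * κ := by linarith
  obtain ⟨Cs, hCs, hs⟩ := shift h hξ G1 G2 hc (2 * M + 2)
  obtain ⟨W, hW, hw⟩ := series_main h hκ E1 E2
  obtain ⟨Cd, hCd, hd⟩ := Dp_le h hκ
  refine ⟨Cs * 3 ^ (2 * M) + W * Cd, max (Real.exp 1) (2 * R), by positivity, le_max_left _ _, fun T hT H hH0 hHT => ?_⟩
  have hTe : Real.exp 1 ≤ T := (le_max_left _ _).trans hT
  have hTR : 2 * R ≤ T := (le_max_right _ _).trans hT
  have hT1 : 1 ≤ T := by have := Real.add_one_le_exp 1; linarith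
  have hT0 : 0 < T := by linarith
  have hL : 1 ≤ Real.log T := by
    rw [Real.le_log_iff_exp_le hT0]; exact hTe
  obtain ⟨L, hLd⟩ : ∃ L, L = Real.log T := ⟨_, rfl⟩
  rw [← hLd] at hL ⊢
  have hE : Real.exp (ξ1 * (L * (1 + 4 * κ - 1 / 2))) = T ^ (ξ1 * (1 / 2 + 4 * κ)) := by
    rw [Real.rpow_def_of_pos hT0]
    congr 1; rw [hLd]; ring
  obtain ⟨E, hEd⟩ : ∃ E, E = T ^ (ξ1 * (1 / 2 + 4 * κ)) := ⟨_, rfl⟩
  rw [← hEd] at hE ⊢
  have hE0 : 0 ≤ E := by rw [hEd]; positivity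
  have hab : T ≤ T + H := by linarith
  have iI : IntervalIntegrable (I0 ψ F1 F2 L) volume T (T + H) :=
    (I0_int h G1 G2 hL (by linarith : 0 ≤ T + H)).mono_set (by
      rw [uIcc_of_le hab, uIcc_of_le (by linarith)]; exact Icc_subset_Icc_left hT0.le)
  have iK : IntervalIntegrable (K0 ψ F1 F2 (1 + 4 * κ) L) volume T (T + H) :=
    (K0_int h hc G1 G2 hL (by linarith : 0 ≤ T + H)).mono_set (by
      rw [uIcc_of_le hab, uIcc_of_le (by linarith)]; exact Icc_subset_Icc_left hT0.le)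
  have p1 : ‖∫ t in T..(T + H), (I0 ψ F1 F2 L t - K0 ψ F1 F2 (1 + 4 * κ) L t)‖ ≤ Cs * 3 ^ (2 * M) * E := by
    have h1 := intervalIntegral.norm_integral_le_of_norm_le_const (a := T) (b := T + H)
      (f := fun t => I0 ψ F1 F2 L t - K0 ψ F1 F2 (1 + 4 * κ) L t)
      (C := Cs * (E * (3 * T) ^ (2 * M)) / T ^ (2 * M + 2)) (fun t ht => by
        rw [uIoc_of_le hab] at ht
        have h0 : 0 ≤ t := by linarith [ht.1]
        refine (hs L T t hL hT1 hTR ht.1.le).trans ?_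
        rw [hE]
        have := ht.2
        gcongr
        linarith)
    refine h1.trans ?_
    rw [add_sub_cancel_left, abs_of_nonneg hH0]
    calc Cs * (E * (3 * T) ^ (2 * M)) / T ^ (2 * M + 2) * H ≤ Cs * (E * (3 * T) ^ (2 * M)) / T ^ (2 * M + 2) * T := by
          gcongr
      _ = Cs * 3 ^ (2 * M) * E * T⁻¹ := by
          rw [mul_pow, pow_add]
          field_simp
      _ ≤ Cs * 3 ^ (2 * M) * E * 1 := by
          refine mul_le_mul_of_nonneg_left (inv_le_one_of_one_le₀ hT1) (by positivity)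
      _ = _ := mul_one _
  have p2 := hw L hL T (T + H) hab
  rw [add_sub_cancel_left] at p2
  have p3 := mul_le_mul_of_nonneg_left (hd L hL) hW
  rw [hE] at p3
  rw [intervalIntegral.integral_sub iI iK] at p1
  calc _ = ‖((∫ t in T..(T + H), I0 ψ F1 F2 L t) - ∫ t in T..(T + H), K0 ψ F1 F2 (1 + 4 * κ) L t) +
        ((∫ t in T..(T + H), K0 ψ F1 F2 (1 + 4 * κ) L t) - (H : ℂ) * (((2 * Real.pi / L : ℝ) : ℂ) *
          ∑' n : ℕ, A n * B n / n * ψ (2 * Real.log n / L)))‖ := by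
        congr 1; ring
    _ ≤ Cs * 3 ^ (2 * M) * E + W * (Cd * E) := (norm_add_le _ _).trans (add_le_add p1 (p2.trans p3))
    _ = _ := by ring

/-- shifted moments in short intervals -/
theorem short {ξ1 : ℝ} {ψ : ℝ → ℂ} (h : TF ξ1 ψ) (hξ : 0 ≤ ξ1) {θ : ℝ} (hθ0 : ξ1 / 2 < θ) {k l : ℕ} (z : Fin k → ℝ) (w : Fin l → ℝ) :
    ∃ C T1 : ℝ, 0 ≤ C ∧ Real.exp 1 ≤ T1 ∧ ∀ T : ℝ, T1 ≤ T → ∀ H : ℝ, 0 ≤ H → H ≤ T →
      Integrable (fun y : ℝ => P ψ (Real.log T * y * I) * (∫ t in T..(T + H),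
        ZP z (1 / 2 + (y + t : ℝ) * I) * ZP w (1 / 2 + (y - t : ℝ) * I))) ∧
      ‖(∫ y : ℝ, P ψ (Real.log T * y * I) * (∫ t in T..(T + H),
        ZP z (1 / 2 + (y + t : ℝ) * I) * ZP w (1 / 2 + (y - t : ℝ) * I))) -
        (H : ℂ) * (((2 * Real.pi / Real.log T : ℝ) : ℂ) *
          ∑' n : ℕ, tau (fun j => -(z j * I)) n * tau (fun j => -(w j * I)) n / n *
            ψ (2 * Real.log n / Real.log T))‖ ≤ C * T ^ θ := by
  obtain ⟨κ, hκd⟩ : ∃ κ : ℝ, κ = (θ - ξ1 / 2) / (4 * (ξ1 + 1)) := ⟨_, rfl⟩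
  have hg0 : 0 < θ - ξ1 / 2 := by linarith
  have hκ : 0 < κ := by rw [hκd]; positivity
  have hexp : ξ1 * (1 / 2 + 4 * κ) ≤ θ := by
    have e1 : ξ1 * (4 * κ) = (θ - ξ1 / 2) * (ξ1 / (ξ1 + 1)) := by
      rw [hκd]
      field_simp
    have h3 : ξ1 / (ξ1 + 1) ≤ 1 := by
      rw [div_le_one (by linarith)]; linarith
    nlinarith
  obtain ⟨D1, hD1, h1⟩ := tau_ptw k hκ
  obtain ⟨D2, hD2, h2⟩ := tau_ptw l hκ
  obtain ⟨C1, G1⟩ := ZP_DF z hκ hD1 (h1 z) (show 2 * k ≤ 2 * k + 2 * l by omega) (le_max_left (RR z) (RR w))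
  obtain ⟨C2, G2⟩ := ZP_DF w hκ hD2 (h2 w) (show 2 * l ≤ 2 * k + 2 * l by omega) (le_max_right (RR z) (RR w))
  obtain ⟨C, T1, hC, hT1, hc⟩ := short_core h hξ hκ G1 G2 (ZP_DD z hκ (h1 z)) (ZP_DD w hκ (h2 w))
  refine ⟨C, T1, hC, hT1, fun T hT H hH0 hHT => ?_⟩
  have hTe : Real.exp 1 ≤ T := hT1.trans hT
  have hT1' : 1 ≤ T := by have := Real.add_one_le_exp 1; linarith
  have hT0 : 0 < T := by linarith
  have hL : 1 ≤ Real.log T := by
    rw [Real.le_log_iff_exp_le hT0]; exact hTe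
  obtain ⟨i1, i2⟩ := swap_gen h G1 G2 hL hT0.le (show T ≤ T + H by linarith)
  refine ⟨i1, ?_⟩
  rw [i2]
  refine (hc T hT H hH0 hHT).trans ?_
  exact mul_le_mul_of_nonneg_left (Real.rpow_le_rpow_of_exponent_le hT1' hexp) hC

end Pool.Agent.R313.KO
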